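import Pool.Agent.Q160.CD3

set_option autoImplicit false

/-!
# MP_8e1908_an: the extremal critical-point distance at a fixed zero does not tend to one

For every `0 < a < 1` there is `ε > 0` such that, for all large `n`, every polynomial of degree `n`
with a zero at `a` and all zeros in the closed unit disk has a critical point within `1 - ε` of `a`.
Hence `limsup δ_n(a) < 1`, and `δ_n(a)` does not tend to `1`: the answer to Q1 is no, for every `a`.
-/

open Filter Topology Polynomial Pool.Agent.Q160.CritDist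

namespace Pool.Agent.Results.MP_8e1908_an.NotOne

/-- `d(a, P)`: the distance from `a` to the nearest critical point of `P`. -/
noncomputable def critDist (a : ℂ) (P : ℂ[X]) : ℝ :=
  sInf {r : ℝ | ∃ ζ : ℂ, P.derivative.eval ζ = 0 ∧ r = ‖ζ - a‖}

/-- `P` has degree `n`, `P(a) = 0` and all zeros of `P` lie in the closed unit disk. -/
def Admissible (n : ℕ) (a : ℝ) (P : ℂ[X]) : Prop :=
  P.natDegree = n ∧ P.eval (a : ℂ) = 0 ∧ ∀ z : ℂ, P.eval z = 0 → ‖z‖ ≤ 1

/-- `δ_n(a)`: the supremum (a maximum) of `d(a, P)` over all admissible `P`. -/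
noncomputable def delta (n : ℕ) (a : ℝ) : ℝ :=
  sSup {d : ℝ | ∃ P : ℂ[X], Admissible n a P ∧ d = critDist a P}

theorem exists_fun (s : Multiset ℂ) {k : ℕ} (h : s.card = k) :
    ∃ z : Fin k → ℂ, (∀ j, z j ∈ s) ∧ ∀ g : ℂ → ℂ, (s.map g).prod = ∏ j, g (z j) := by
  subst h
  induction s using Quotient.inductionOn with
  | h l =>
    refine ⟨fun j => l[j.1], fun j => ?_, fun g => ?_⟩
    · simp
    · exact (Fin.prod_univ_fun_getElem l g).symm

/-- the choice of the constants -/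
theorem exists_const {a : ℝ} (ha0 : 0 < a) (ha1 : a < 1) :
    ∃ (s κ : ℝ) (M : ℕ), 0 < s ∧ s ≤ a ^ 2 * (1 - a) ^ 2 / 10 ^ 7 ∧ 0 < κ ∧ κ ≤ a / 4 ∧
      κ ≤ (1 - a) / 8 ∧ ((3 + a) / 4) ^ M ≤ (a * s / 16) ^ 2 / 4 ∧
      (1 + 16 * s ^ 2 / (1 - a) ^ 2) ^ 2 * ((1 + 2 * κ) / (1 - a * κ / 2)) ^ (2 * M) <
        1 + a * s / 32 := by
  have h1a : 0 < 1 - a := by linarith
  set s := a ^ 2 * (1 - a) ^ 2 / 10 ^ 7 with hs
  have hs0 : 0 < s := by positivity
  obtain ⟨M, hM⟩ := exists_pow_lt_of_lt_one (x := (a * s / 16) ^ 2 / 4) (y := (3 + a) / 4)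
    (by positivity) (by linarith)
  have hcont : ContinuousAt (fun κ : ℝ => (1 + 16 * s ^ 2 / (1 - a) ^ 2) ^ 2 *
      ((1 + 2 * κ) / (1 - a * κ / 2)) ^ (2 * M)) 0 := by
    apply ContinuousAt.mul continuousAt_const
    apply ContinuousAt.pow
    apply ContinuousAt.div (by fun_prop) (by fun_prop)
    norm_num
  have h0 : (1 + 16 * s ^ 2 / (1 - a) ^ 2) ^ 2 < 1 + a * s / 32 := by
    have e1 : 16 * s ^ 2 / (1 - a) ^ 2 = s * (16 * a ^ 2 / 10 ^ 7) := by
      rw [hs]; field_simp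
    rw [e1]
    have h2 : s ≤ 1 := by
      rw [hs]
      have : a ^ 2 ≤ 1 := by nlinarith
      have : (1 - a) ^ 2 ≤ 1 := by nlinarith
      have : a ^ 2 * (1 - a) ^ 2 ≤ 1 * 1 := by gcongr
      linarith
    set q := 16 * a ^ 2 / 10 ^ 7 with hq
    have hq0 : 0 < q := by positivity
    have hq1 : q ≤ a / 10 ^ 4 := by
      rw [hq]
      have : a ^ 2 ≤ a := by nlinarith
      linarith
    have hsq : 0 < s * q := by positivity
    have hsq1 : s * q ≤ s * (a / 10 ^ 4) := by gcongr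
    have hsq2 : s * q ≤ 1 := by nlinarith
    nlinarith
  have hev : ∀ᶠ κ in 𝓝[>] (0 : ℝ), (1 + 16 * s ^ 2 / (1 - a) ^ 2) ^ 2 *
      ((1 + 2 * κ) / (1 - a * κ / 2)) ^ (2 * M) < 1 + a * s / 32 := by
    apply nhdsWithin_le_nhds
    apply hcont.eventually_lt continuousAt_const
    simpa using h0
  have hev2 : ∀ᶠ κ in 𝓝[>] (0 : ℝ), κ < min (a / 4) ((1 - a) / 8) :=
    nhdsWithin_le_nhds (eventually_lt_nhds (by positivity))
  have hev3 : ∀ᶠ κ in 𝓝[>] (0 : ℝ), 0 < κ := eventually_mem_nhdsWithin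
  obtain ⟨κ, h3, h4, h5⟩ := (hev.and (hev2.and hev3)).exists
  rw [lt_min_iff] at h4
  exact ⟨s, κ, M, hs0, le_refl _, h5, h4.1.le, h4.2.le, hM.le, h3⟩

theorem exists_crit {a : ℝ} (ha0 : 0 < a) (ha1 : a < 1) :
    ∃ ε : ℝ, 0 < ε ∧ ε ≤ 1 / 2 ∧ ∃ N : ℕ, ∀ n ≥ N, ∀ P : ℂ[X], Admissible n a P →
      ∃ ζ : ℂ, P.derivative.eval ζ = 0 ∧ ‖ζ - a‖ ≤ 1 - ε := by
  obtain ⟨s, κ, M, hs0, hs, hκ0, hκ, hκ1, hM, hB⟩ := exists_const ha0 ha1
  have h1a : 0 < 1 - a := by linarith
  have hρ : 1 / 2 ≤ 1 - a * κ / 2 := by nlinarith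
  set e := 16 * s ^ 2 / (1 - a) ^ 2 with he
  have he0 : 0 ≤ e := by positivity
  set B := (1 + e) ^ 2 * ((1 + 2 * κ) / (1 - a * κ / 2)) ^ (2 * M) with hBdef
  have hB0 : 0 < B := by
    have : 0 < 1 - a * κ / 2 := by linarith
    positivity
  set C := 4096 * (1 + e) ^ 2 * (16 * (1 + 2 * κ)) ^ (2 * M) with hC
  have hC0 : 0 < C := by positivity
  have hr : 1 < (1 + a * s / 32) / B := by rwa [one_lt_div hB0]
  have hev1 : ∀ᶠ m : ℕ in atTop, (1152 / a) ^ 2 ≤ (1 + a * s / 64) ^ m :=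
    (tendsto_pow_atTop_atTop_of_one_lt (by
      have : 0 < a * s / 64 := by positivity
      linarith)).eventually_ge_atTop _
  have hev2 : ∀ᶠ m : ℕ in atTop, (m : ℝ) ^ 2 / (1 + s * κ / 4) ^ m < 1 / 256 :=
    (tendsto_pow_const_div_const_pow_of_one_lt 2 (by
      have : 0 < s * κ / 4 := by positivity
      linarith)).eventually_lt_const (by norm_num)
  have hev3 : ∀ᶠ m : ℕ in atTop, (m : ℝ) ^ 4 / ((1 + a * s / 32) / B) ^ m < 1 / C :=
    (tendsto_pow_const_div_const_pow_of_one_lt 4 hr).eventually_lt_const (by positivity)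
  obtain ⟨m₀, hm₀⟩ := eventually_atTop.1 (hev1.and (hev2.and (hev3.and (eventually_ge_atTop 1))))
  refine ⟨a * κ / 2, by positivity, by linarith, m₀ + 1, ?_⟩
  intro n hn P hP
  obtain ⟨m, rfl⟩ : ∃ m, n = m + 1 := ⟨n - 1, by omega⟩
  obtain ⟨h1, h2, h3, hm1⟩ := hm₀ m (by omega)
  by_contra hcon
  push Not at hcon
  obtain ⟨hdeg, hPa, hPz⟩ := hP
  have hP0 : P ≠ 0 := by
    rintro rfl
    simp at hdeg
  have hPs : P.Splits := IsAlgClosed.splits P
  have hcard : P.roots.card = m + 1 := by rw [← hdeg]; exact hPs.natDegree_eq_card_roots.symm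
  have hd0 : P.derivative.natDegree = m := by
    have h5 : (P.derivative).coeff m ≠ 0 := by
      rw [coeff_derivative, ← hdeg]
      exact mul_ne_zero (leadingCoeff_ne_zero.2 hP0) (by exact_mod_cast Nat.succ_ne_zero m)
    have h6 : P.derivative.natDegree ≤ m := by
      have := natDegree_derivative_le P
      omega
    exact le_antisymm h6 (le_natDegree_of_ne_zero h5)
  have hdne : P.derivative ≠ 0 := by
    intro h
    rw [h] at hd0
    simp at hd0
    omega
  have hds : P.derivative.Splits := IsAlgClosed.splits _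
  have hdcard : P.derivative.roots.card = m := by
    rw [← hd0]; exact hds.natDegree_eq_card_roots.symm
  obtain ⟨z, hzmem, hzprod⟩ := exists_fun P.roots hcard
  obtain ⟨ζ, hζmem, hζprod⟩ := exists_fun P.derivative.roots hdcard
  have hz : ∀ j, ‖z j‖ ≤ 1 := by
    intro j
    have := hzmem j
    rw [mem_roots hP0] at this
    exact hPz _ this
  have hζroot : ∀ i, P.derivative.eval (ζ i) = 0 := by
    intro i
    have := hζmem i
    rw [mem_roots hdne] at this
    exact this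
  have hζ1 : ∀ i, ‖ζ i‖ ≤ 1 := by
    intro i
    have h5 : 0 < P.degree := by
      rw [← natDegree_pos_iff_degree_pos]; omega
    have h6 := rootSet_derivative_subset_convexHull_rootSet h5
    have h7 : ζ i ∈ P.derivative.rootSet ℂ := by
      rw [mem_rootSet]
      exact ⟨hdne, by rw [coe_aeval_eq_eval]; exact hζroot i⟩
    have h8 : convexHull ℝ (P.rootSet ℂ) ⊆ Metric.closedBall (0 : ℂ) 1 := by
      apply convexHull_min _ (convex_closedBall _ _)
      intro y hy
      rw [mem_rootSet, coe_aeval_eq_eval] at hy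
      rw [mem_closedBall_zero_iff]
      exact hPz y hy.2
    simpa using h8 (h6 h7)
  have hlc : P.leadingCoeff ≠ 0 := leadingCoeff_ne_zero.2 hP0
  have hdlc : P.derivative.leadingCoeff = P.leadingCoeff * ((m : ℂ) + 1) := by
    rw [leadingCoeff, hd0, coeff_derivative, leadingCoeff, hdeg]
  have hPe : ∀ x, P.eval x = P.leadingCoeff * ∏ j, (x - z j) := by
    intro x
    rw [hPs.eval_eq_prod_roots, hzprod]
  have hde : ∀ x, P.derivative.eval x = P.leadingCoeff * ((m : ℂ) + 1) * ∏ j, (x - ζ j) := by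
    intro x
    rw [hds.eval_eq_prod_roots, hζprod, hdlc]
  have hder : ∀ x, HasDerivAt (fun x => ∏ j, (x - z j)) (F ((m : ℂ) + 1) ζ x) x := by
    intro x
    have h5 := (P.hasDerivAt x).const_mul (P.leadingCoeff⁻¹)
    have h6 : (fun x => P.leadingCoeff⁻¹ * P.eval x) = fun x => ∏ j, (x - z j) := by
      funext x
      rw [hPe, ← mul_assoc, inv_mul_cancel₀ hlc, one_mul]
    have h7 : P.leadingCoeff⁻¹ * P.derivative.eval x = F ((m : ℂ) + 1) ζ x := by
      rw [hde]
      unfold F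
      field_simp
    rw [h6, h7] at h5
    exact h5
  have D : Dat m a κ s ((m : ℂ) + 1) ζ (fun x => ∏ j, (x - z j)) :=
    { ha0 := ha0
      ha1 := ha1
      hκ0 := hκ0
      hκ := hκ
      hκ1 := hκ1
      hs0 := hs0
      hs := hs
      h1 := hζ1
      h2 := fun i => (hcon (ζ i) (hζroot i)).le
      hP := hder
      hPa := by
        have := hPe a
        rw [hPa] at this
        rcases mul_eq_zero.1 this.symm with h | h
        · exact absurd h hlc
        · exact h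
      hm := hm1
      hm1 := h1
      hm2 := by
        have h5 : 0 < (1 + s * κ / 4) ^ m := by positivity
        rw [div_lt_iff₀ h5] at h2
        nlinarith }
  have hfin := D.final_ineq z hz (fun x => rfl) (by
    have : ‖((m : ℂ) + 1)‖ = (m : ℝ) + 1 := by
      have : ((m : ℂ) + 1) = (((m : ℝ) + 1 : ℝ) : ℂ) := by push_cast; rfl
      rw [this, Complex.norm_real, Real.norm_of_nonneg (by positivity)]
    rw [this]
    linarith) hM
  have hρ0 : 0 < 1 - a * κ / 2 := by linarith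
  have e1 : 4096 * (m : ℝ) ^ 4 * (1 + 16 * s ^ 2 / (1 - a) ^ 2) ^ (2 * (m + 1)) *
      (16 * (1 + 2 * κ) ^ (m + 1) / (1 - a * κ / 2) ^ m) ^ (2 * M) = C * (m : ℝ) ^ 4 * B ^ m := by
    rw [← he, hC, hBdef]
    have e2 : 16 * (1 + 2 * κ) ^ (m + 1) / (1 - a * κ / 2) ^ m =
        (16 * (1 + 2 * κ)) * ((1 + 2 * κ) / (1 - a * κ / 2)) ^ m := by
      rw [div_pow, pow_succ]; ring
    rw [e2, mul_pow, mul_pow _ _ m, ← pow_mul, ← pow_mul, ← pow_mul, mul_comm m (2 * M),
      mul_add, mul_one, pow_add]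
    ring
  rw [e1] at hfin
  rw [div_pow, div_div_eq_mul_div, div_lt_div_iff₀ (by positivity) hC0] at h3
  nlinarith

/-- **The answer to Q1 is negative for every `a`.** Let `0 < a < 1`.  There is `ε > 0` such that for
all large `n` every polynomial of degree `n` with a zero at `a` and all its zeros in the closed unit
disk has a critical point within distance `1 - ε` of `a`; hence `δ_n(a) ≤ 1 - ε` for all large `n`,
and `δ_n(a)` does not tend to `1`. -/
theorem result (a : ℝ) (ha0 : 0 < a) (ha1 : a < 1) :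
    (∃ ε : ℝ, 0 < ε ∧ ∃ N : ℕ, ∀ n ≥ N,
      (∀ P : ℂ[X], Admissible n a P →
        ∃ ζ : ℂ, P.derivative.eval ζ = 0 ∧ ‖ζ - a‖ ≤ 1 - ε) ∧
      delta n a ≤ 1 - ε) ∧
    ¬ Tendsto (fun n => delta n a) atTop (𝓝 1) := by
  obtain ⟨ε, hε, hε1, N, hN⟩ := exists_crit ha0 ha1
  have hdelta : ∀ n ≥ N, delta n a ≤ 1 - ε := by
    intro n hn
    apply Real.sSup_le
    · rintro d ⟨P, hP, rfl⟩
      obtain ⟨ζ, h1, h2⟩ := hN n hn P hP
      have hb : BddBelow {r : ℝ | ∃ ζ : ℂ, P.derivative.eval ζ = 0 ∧ r = ‖ζ - a‖} := by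
        refine ⟨0, ?_⟩
        rintro r ⟨ξ, _, rfl⟩
        exact norm_nonneg _
      exact (csInf_le hb ⟨ζ, h1, rfl⟩).trans h2
    · linarith
  refine ⟨⟨ε, hε, N, fun n hn => ⟨hN n hn, hdelta n hn⟩⟩, ?_⟩
  intro ht
  have := le_of_tendsto ht (eventually_atTop.2 ⟨N, hdelta⟩)
  linarith

end Pool.Agent.Results.MP_8e1908_an.NotOne
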